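import Pool.Agent.Y663.WA.Fn

/-!
Laws on two points and large multiples of the kinetic energy.
-/

set_option autoImplicit false

open MeasureTheory Filter Topology

namespace Pool.Agent.Y663.WA

open Pool.Agent.W792.LL Pool.Agent.W792.WA

variable {d : ℕ}

/-- the value of a coin -/
def sg (s : Bool) : ℝ := if s then 1 else -1

theorem sg_meas : Measurable sg := measurable_of_countable sg

theorem two_pt (β : Measure Bool) [IsProbabilityMeasure β] (h1 : β {true} ≠ 0)
    (h2 : β {false} ≠ 0) (a : ℝ) : (β.map sg) {a} < 1 := by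
  rw [Measure.map_apply sg_meas (measurableSet_singleton a)]
  by_contra hlt
  push Not at hlt
  have hp : β (sg ⁻¹' {a}) = 1 := le_antisymm prob_le_one hlt
  have hc : β (sg ⁻¹' {a})ᶜ = 0 := (prob_compl_eq_zero_iff (sg_meas (measurableSet_singleton a))).2 hp
  by_cases ha : sg true = a
  · have h3 : ({false} : Set Bool) ⊆ (sg ⁻¹' {a})ᶜ := by
      intro s hs h4
      rw [Set.mem_singleton_iff] at hs
      rw [Set.mem_preimage, Set.mem_singleton_iff, hs, ← ha] at h4
      unfold sg at h4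
      norm_num at h4
    exact h2 (measure_mono_null h3 hc)
  · have h3 : ({true} : Set Bool) ⊆ (sg ⁻¹' {a})ᶜ := by
      intro s hs h4
      rw [Set.mem_singleton_iff] at hs
      rw [Set.mem_preimage, Set.mem_singleton_iff, hs] at h4
      exact ha h4
    exact h1 (measure_mono_null h3 hc)

theorem sg_bd (β : Measure Bool) : ∀ᵐ s ∂(β.map sg), |s| ≤ 1 := by
  rw [ae_map_iff sg_meas.aemeasurable (measurableSet_le (by fun_prop) (by fun_prop))]
  refine Eventually.of_forall fun s => ?_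
  unfold sg
  split_ifs <;> norm_num

theorem ae_coin (β : Measure Bool) [IsProbabilityMeasure β] {P : ((Fin d → ℤ) → ℝ) → Prop}
    (h : ∀ᵐ ω ∂(Measure.infinitePi fun _ : Fin d → ℤ => β.map sg), P ω) :
    ∀ᵐ ω ∂(Measure.infinitePi fun _ : Fin d → ℤ => β), P fun x => sg (ω x) := by
  have hm : (Measure.infinitePi fun _ : Fin d → ℤ => β).map (fun ω x => sg (ω x)) =
      Measure.infinitePi fun _ : Fin d → ℤ => β.map sg :=
    Measure.infinitePi_map_pi (μ := fun _ : Fin d → ℤ => β) (f := fun _ => sg)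
      fun _ => sg_meas
  have hmeas : Measurable fun (ω : (Fin d → ℤ) → Bool) (x : Fin d → ℤ) => sg (ω x) :=
    measurable_pi_lambda _ fun x => sg_meas.comp (measurable_pi_apply x)
  rw [← hm] at h
  exact ae_of_ae_map hmeas.aemeasurable h

/-- the statement for large hopping -/
theorem coin_ac (d : ℕ) (hd : 0 < d) (ε : ℝ) (hε : 0 < ε) : ∃ g : C(ℝ, ℝ), (∀ t, |g t| ≤ ε) ∧
    (∀ x : Fin d → ℤ,
      ‖UnitAddTorus.mFourierCoeff (fun k : UnitAddTorus (Fin d) => ((g (lap d k) : ℝ) : ℂ)) x‖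
        ≤ ε / (1 + ‖x‖) ^ ((d : ℝ) / 3)) ∧
    ∀ (β : Measure Bool) [IsProbabilityMeasure β], β {true} ≠ 0 → β {false} ≠ 0 →
      ∃ t₀ : ℝ, 0 < t₀ ∧ ∀ t : ℝ, t₀ ≤ t →
        ∀ᵐ ω ∂(Measure.infinitePi fun _ : Fin d → ℤ => β),
          ACIK (t • (lap d + gK g d)) 1 (fun x => sg (ω x)) 0 (4 * d * t) := by
  have hd' : (0 : ℝ) < d := by exact_mod_cast hd
  have hlt : (⨅ k, lap d k) < ⨆ k, lap d k := by
    rw [Br.lap_inf, Br.lap_sup]
    linarith
  obtain ⟨g, hg, hgd, h⟩ := Al.kfdc d (lap d) ε hd hε hlt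
  refine ⟨g, hg, hgd, fun β _ hβ1 hβ2 => ?_⟩
  have : IsProbabilityMeasure (β.map sg) :=
    Measure.isProbabilityMeasure_map sg_meas.aemeasurable
  obtain ⟨lam₀, h0, h1⟩ := h (β.map sg) (int_pow (sg_bd β) 60) (two_pt β hβ1 hβ2)
  refine ⟨1 / lam₀, by positivity, fun t ht => ?_⟩
  have ht0 : 0 < t := lt_of_lt_of_le (by positivity) ht
  have h3 : 1 / t ≤ lam₀ := by
    rw [div_le_iff₀ ht0]
    rw [div_le_iff₀ h0] at ht
    linarith
  have h2 := ae_coin β (h1 (1 / t) (by positivity) h3)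
  filter_upwards [h2] with ω hω
  rw [Br.lap_inf, Br.lap_sup] at hω
  have h4 := Br.scale_up (lap d + gK g d) ht0 hω
  rw [mul_zero] at h4
  have e : t * (4 * (d : ℝ)) = 4 * d * t := by ring
  rwa [e] at h4

end Pool.Agent.Y663.WA
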