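import Pool.Agent.Y663.WA.Vec
import Pool.Agent.W792.WA.All4

/-!
From the solutions of `(H - z) w = δ_x` to the bounded self-adjoint operator.
-/

set_option autoImplicit false

open MeasureTheory Filter Topology
open scoped InnerProductSpace ComplexConjugate

namespace Pool.Agent.Y663.WA

open Pool.Agent.W792.LL Pool.Agent.W792.WA
open Pool.Agent.TH369.MU (SpM spm_exists)
open Pool.Agent.TH369.AN (Rz rz_eq rz_uniq)
open Pool.Agent.TH369.SJ (spm_unique)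

variable {d : ℕ}

/-- the operator with symbol `K` and potential `V` -/
noncomputable def TK (K : C(UnitAddTorus (Fin d), ℝ)) (B : ℝ) (V : (Fin d → ℤ) → ℝ) :
    l2 (Fin d → ℤ) →L[ℂ] l2 (Fin d → ℤ) :=
  opr (cR K) + (B : ℂ) • dia (fun x => ((V x / B : ℝ) : ℂ))

theorem cR_apply (K : C(UnitAddTorus (Fin d), ℝ)) (k : UnitAddTorus (Fin d)) :
    cR K k = (K k : ℂ) := by
  have h : Continuous fun k : UnitAddTorus (Fin d) => (K k : ℂ) :=
    Complex.continuous_ofReal.comp K.continuous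
  unfold cR toC
  rw [dif_pos h]
  rfl

theorem cR_coe (K : C(UnitAddTorus (Fin d), ℝ)) :
    (⇑(cR K) : UnitAddTorus (Fin d) → ℂ) = fun k => (K k : ℂ) := funext (cR_apply K)

theorem dia_bd {B : ℝ} (hB : 0 < B) {V : (Fin d → ℤ) → ℝ} (hV : ∀ x, |V x| ≤ B) (x : Fin d → ℤ) :
    ‖((V x / B : ℝ) : ℂ)‖ ≤ 1 := by
  rw [Complex.norm_real, Real.norm_eq_abs, abs_div, abs_of_pos hB]
  exact (div_le_one hB).2 (hV x)

theorem TK_apply (K : C(UnitAddTorus (Fin d), ℝ)) {B : ℝ} (hB : 0 < B) {V : (Fin d → ℤ) → ℝ}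
    (hV : ∀ x, |V x| ≤ B) (u : l2 (Fin d → ℤ)) (x : Fin d → ℤ) :
    TK K B V u x = ∑' y, hopK K (x - y) * u y + (V x : ℂ) * u x := by
  have h1 := ((Al.opr d (cR K) 1).1 u x).2
  have h2 := (Al.dia (Fin d → ℤ) _ (dia_bd hB hV)).1 u x
  have h3 : TK K B V u x = opr (cR K) u x + (B : ℂ) * (dia (fun x => ((V x / B : ℝ) : ℂ)) u x) := by
    rfl
  rw [h3, h1, h2, cR_coe]
  have hB' : (B : ℂ) ≠ 0 := by exact_mod_cast hB.ne'
  congr 1
  push_cast
  field_simp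

theorem opr_sa (K : C(UnitAddTorus (Fin d), ℝ)) (u w : l2 (Fin d → ℤ)) :
    ⟪opr (cR K) u, w⟫_ℂ = ⟪u, opr (cR K) w⟫_ℂ := by
  have h1 := (Al.symb d).1 (cR K) 1 u w
  have h2 := (Al.opr d (cR K) 1).2.2.2.2.2.1
  have h3 : star (cR K) * 1 = cR K := by
    ext k
    rw [mul_one, ContinuousMap.star_apply, cR_apply]
    exact Complex.conj_ofReal _
  rw [h2, h3] at h1
  exact h1

theorem dia_sa {c : (Fin d → ℤ) → ℝ} (hc : ∀ x, ‖(c x : ℂ)‖ ≤ 1) (u w : l2 (Fin d → ℤ)) :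
    ⟪dia (fun x => (c x : ℂ)) u, w⟫_ℂ = ⟪u, dia (fun x => (c x : ℂ)) w⟫_ℂ := by
  have h := (Al.dia (Fin d → ℤ) (fun x => (c x : ℂ)) hc).1
  rw [lp.inner_eq_tsum, lp.inner_eq_tsum]
  refine tsum_congr fun x => ?_
  rw [h, h]
  simp only [RCLike.inner_apply, map_mul, Complex.conj_ofReal]
  ring

theorem TK_sa (K : C(UnitAddTorus (Fin d), ℝ)) {B : ℝ} (hB : 0 < B) {V : (Fin d → ℤ) → ℝ}
    (hV : ∀ x, |V x| ≤ B) : IsSelfAdjoint (TK K B V) := by
  rw [ContinuousLinearMap.isSelfAdjoint_iff_isSymmetric]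
  intro u w
  change ⟪TK K B V u, w⟫_ℂ = ⟪u, TK K B V w⟫_ℂ
  unfold TK
  simp only [ContinuousLinearMap.add_apply, ContinuousLinearMap.smul_apply, inner_add_left,
    inner_add_right, inner_smul_left, inner_smul_right, Complex.conj_ofReal]
  rw [opr_sa, dia_sa (dia_bd hB hV)]

theorem dl_apply (x y : Fin d → ℤ) : (dl x : l2 (Fin d → ℤ)) y = if y = x then 1 else 0 := by
  unfold dl
  by_cases h : y = x
  · subst h
    rw [if_pos rfl, lp.single_apply_self]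
  · rw [if_neg h, lp.single_apply, Pi.single_eq_of_ne h]

theorem inner_dl (x : Fin d → ℤ) (w : l2 (Fin d → ℤ)) : ⟪dl x, w⟫_ℂ = w x := by
  rw [lp.inner_eq_tsum, tsum_eq_single x]
  · rw [dl_apply, if_pos rfl]
    simp
  · intro y hy
    rw [dl_apply, if_neg hy]
    simp

theorem l2_summable (w : l2 (Fin d → ℤ)) : Summable fun y => ‖w y‖ ^ 2 := by
  have h := (lp.memℓp w).summable (by norm_num)
  refine h.congr fun y => ?_
  norm_num

/-- a square summable function as a vector -/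
noncomputable def mk2 (w : (Fin d → ℤ) → ℂ) (hw : Summable fun y => ‖w y‖ ^ 2) :
    l2 (Fin d → ℤ) :=
  ⟨w, memℓp_gen (by
    refine hw.congr fun y => ?_
    norm_num)⟩

theorem mk2_apply (w : (Fin d → ℤ) → ℂ) (hw : Summable fun y => ‖w y‖ ^ 2) (y : Fin d → ℤ) :
    mk2 w hw y = w y := rfl

theorem sub_smul_apply (T : l2 (Fin d → ℤ) →L[ℂ] l2 (Fin d → ℤ)) (z : ℂ) (w : l2 (Fin d → ℤ))
    (y : Fin d → ℤ) : (T w - z • w : l2 (Fin d → ℤ)) y = T w y - z * w y := rfl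

theorem sol_Rz (K : C(UnitAddTorus (Fin d), ℝ)) {B lam : ℝ} (hB : 0 < B) {v : (Fin d → ℤ) → ℝ}
    (hV : ∀ x, |lam * v x| ≤ B) {z : ℂ} (hz : z.im ≠ 0) (x : Fin d → ℤ) (w : (Fin d → ℤ) → ℂ)
    (h : Sol (hopK K) lam v z x w) (y : Fin d → ℤ) :
    w y = (Rz (TK K B fun x => lam * v x) z (dl x)) y := by
  obtain ⟨h1, h2⟩ := h
  have h3 : mk2 w h1 = Rz (TK K B fun x => lam * v x) z (dl x) := by
    apply rz_uniq _ (TK_sa K hB hV) z hz
    apply lp.ext
    funext y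
    rw [sub_smul_apply, TK_apply K hB hV, dl_apply]
    exact h2 y
  rw [← h3]
  rfl

theorem Rz_sol (K : C(UnitAddTorus (Fin d), ℝ)) {B lam : ℝ} (hB : 0 < B) {v : (Fin d → ℤ) → ℝ}
    (hV : ∀ x, |lam * v x| ≤ B) {z : ℂ} (hz : z.im ≠ 0) (x : Fin d → ℤ) :
    Sol (hopK K) lam v z x fun y => (Rz (TK K B fun x => lam * v x) z (dl x)) y := by
  refine ⟨l2_summable _, fun y => ?_⟩
  have h1 := rz_eq (TK K B fun x => lam * v x) (TK_sa K hB hV) z hz (dl x)
  have h2 : (TK K B (fun x => lam * v x) (Rz (TK K B fun x => lam * v x) z (dl x)) -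
      z • Rz (TK K B fun x => lam * v x) z (dl x) : l2 (Fin d → ℤ)) y = (dl x : l2 _) y := by
    rw [h1]
  rw [sub_smul_apply, TK_apply K hB hV, dl_apply] at h2
  exact h2

/-- the resolvent at the conjugate point -/
theorem Rz_conj (T : l2 (Fin d → ℤ) →L[ℂ] l2 (Fin d → ℤ)) (hT : IsSelfAdjoint T) {z : ℂ}
    (hz : z.im ≠ 0) (φ : l2 (Fin d → ℤ)) :
    ⟪φ, Rz T (conj z) φ⟫_ℂ = conj ⟪φ, Rz T z φ⟫_ℂ := by
  obtain ⟨m, hm, -⟩ := spm_exists T hT φ
  have hz' : (conj z).im ≠ 0 := by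
    rw [Complex.conj_im]
    exact neg_ne_zero.2 hz
  rw [hm.2 _ hz, hm.2 _ hz', ← integral_conj]
  refine integral_congr_ae (Eventually.of_forall fun t => ?_)
  simp [map_inv₀]

theorem spm_site (K : C(UnitAddTorus (Fin d), ℝ)) {B lam : ℝ} (hB : 0 < B)
    {v : (Fin d → ℤ) → ℝ} (hV : ∀ x, |lam * v x| ≤ B) (x : Fin d → ℤ) (μ : Measure ℝ)
    [hμ : IsFiniteMeasure μ] (h : ∀ z : ℂ, 0 < z.im → ∀ w, Sol (hopK K) lam v z x w →
      w x = ∫ E : ℝ, 1 / ((E : ℂ) - z) ∂μ) : SpM (TK K B fun x => lam * v x) (dl x) μ := by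
  have hT := TK_sa K hB hV
  have key : ∀ z : ℂ, 0 < z.im → ⟪dl x, Rz (TK K B fun x => lam * v x) z (dl x)⟫_ℂ =
      ∫ E : ℝ, ((E : ℂ) - z)⁻¹ ∂μ := by
    intro z hz
    rw [inner_dl, h z hz _ (Rz_sol K hB hV hz.ne' x)]
    simp only [one_div]
  refine ⟨hμ, fun z hz => ?_⟩
  rcases lt_or_gt_of_ne hz with h1 | h1
  · have h2 : 0 < (conj z).im := by
      rw [Complex.conj_im]
      linarith
    have h3 := key _ h2
    have h4 := Rz_conj _ hT h2.ne' (dl x)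
    rw [Complex.conj_conj] at h4
    rw [h4, h3, ← integral_conj]
    refine integral_congr_ae (Eventually.of_forall fun t => ?_)
    simp [map_inv₀]
  · exact key z h1

theorem dense_dl (φ : l2 (Fin d → ℤ)) (δ : ℝ) (hδ : 0 < δ) :
    ∃ (s : Finset (Fin d → ℤ)) (c : (Fin d → ℤ) → ℂ),
      ‖φ - ∑ i ∈ s, c i • (dl i : l2 (Fin d → ℤ))‖ ≤ δ := by
  classical
  have h1 : HasSum (fun x : Fin d → ℤ => φ x • (dl x : l2 (Fin d → ℤ))) φ := by
    have h2 := lp.hasSum_single (p := 2) (by norm_num) φ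
    have h0 : (fun x : Fin d → ℤ => φ x • (dl x : l2 (Fin d → ℤ))) =
        fun x : Fin d → ℤ => lp.single 2 x (φ x) := by
      funext x
      unfold dl
      rw [← lp.single_smul, smul_eq_mul, mul_one]
    rw [h0]
    exact h2
  obtain ⟨s, hs⟩ := (Metric.tendsto_atTop.1 h1) δ hδ
  refine ⟨s, fun x => φ x, ?_⟩
  have h4 := hs s le_rfl
  rw [dist_comm, dist_eq_norm] at h4
  exact h4.le

/-- **all vectors** -/
theorem ac_all (K : C(UnitAddTorus (Fin d), ℝ)) {B lam : ℝ} (hB : 0 < B)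
    {v : (Fin d → ℤ) → ℝ} (hV : ∀ x, |lam * v x| ≤ B) {a b : ℝ} (h : ACIK K lam v a b) :
    (∀ (φ : l2 (Fin d → ℤ)) (m : Measure ℝ), SpM (TK K B fun x => lam * v x) φ m →
      ∀ A : Set ℝ, A ⊆ Set.Ioo a b → volume A = 0 → m A = 0) ∧
    (∀ (x : Fin d → ℤ) (m : Measure ℝ), SpM (TK K B fun x => lam * v x) (dl x) m →
      ∀ A : Set ℝ, A ⊆ Set.Ioo a b → MeasurableSet A → m A = 0 → volume A = 0) := by
  have hT := TK_sa K hB hV
  choose μ h1 h2 h3 h4 h5 h6 using h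
  haveI := h2
  have hs : ∀ x m, SpM (TK K B fun x => lam * v x) (dl x) m → m = μ x := fun x m hm =>
    spm_unique _ _ _ _ hm (spm_site K hB hV x (μ x) fun z hz => (h3 x z hz).2)
  have hsub : ∀ (m : Measure ℝ) (A : Set ℝ), A ⊆ Set.Ioo a b →
      m.restrict (Set.Ioo a b) A = m A := by
    intro m A hA
    rw [Measure.restrict_apply' measurableSet_Ioo, Set.inter_eq_left.2 hA]
  refine ⟨fun φ m hm A hA h0 => ?_, fun x m hm A hA hAm h0 => ?_⟩
  · obtain ⟨A', hA', hA'm, hA'0⟩ := exists_measurable_superset_of_null h0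
    have hN : MeasurableSet (A' ∩ Set.Ioo a b) := hA'm.inter measurableSet_Ioo
    refine measure_mono_null (Set.subset_inter hA' hA) ?_
    refine null_all _ hT (fun x => (dl x : l2 (Fin d → ℤ))) hN dense_dl (fun x m' hm' => ?_) φ m hm
    rw [hs x m' hm', ← hsub (μ x) _ Set.inter_subset_right, h6 x,
      withDensity_apply _ hN]
    refine setLIntegral_measure_zero _ _ ?_
    exact le_antisymm ((Measure.restrict_apply_le _ _).trans
      ((measure_mono Set.inter_subset_left).trans hA'0.le)) zero_le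
  · rw [hs x m hm, ← hsub (μ x) A hA, h6 x, withDensity_apply _ hAm,
      lintegral_eq_zero_iff (h4 x).ennreal_ofReal] at h0
    have h7 : ∀ᵐ E ∂((volume.restrict (Set.Ioo a b)).restrict A), False := by
      filter_upwards [h0, ae_restrict_of_ae (h5 x)] with E e1 e2
      simp only [Pi.zero_apply, ENNReal.ofReal_eq_zero] at e1
      linarith
    rw [Filter.eventually_false_iff_eq_bot, ae_eq_bot, Measure.restrict_eq_zero,
      hsub volume A hA] at h7
    exact h7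

end Pool.Agent.Y663.WA
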