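import Pool.Agent.Y663.WA.Brg

/-!
Function level form of the theorem on all spectral measures.
-/

set_option autoImplicit false

open MeasureTheory Filter Topology
open scoped InnerProductSpace ComplexConjugate

namespace Pool.Agent.Y663.WA

open Pool.Agent.W792.LL Pool.Agent.W792.WA
open Pool.Agent.TH369.MU (SpM spm_exists)
open Pool.Agent.TH369.AN (Rz rz_eq rz_uniq)

variable {d : ℕ}

/-- `m` is the spectral measure of `f` for the operator `A` on functions -/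
def IsSpF (A : ((Fin d → ℤ) → ℂ) → (Fin d → ℤ) → ℂ) (f : (Fin d → ℤ) → ℂ) (m : Measure ℝ) :
    Prop :=
  IsFiniteMeasure m ∧ ∀ z : ℂ, z.im ≠ 0 → ∃ u : (Fin d → ℤ) → ℂ, (Summable fun x => ‖u x‖ ^ 2) ∧
    (∀ x, A u x - z * u x = f x) ∧
    ∫ E : ℝ, ((E : ℂ) - z)⁻¹ ∂m = ∑' x, (starRingEnd ℂ) (f x) * u x

/-- `A` has symbol `K` and potential `lam v` -/
def Rep (A : ((Fin d → ℤ) → ℂ) → (Fin d → ℤ) → ℂ) (K : C(UnitAddTorus (Fin d), ℝ)) (lam : ℝ)
    (v : (Fin d → ℤ) → ℝ) : Prop :=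
  ∀ u : (Fin d → ℤ) → ℂ, (Summable fun x => ‖u x‖ ^ 2) → ∀ x,
    A u x = ∑' y, hopK K (x - y) * u y + ((lam * v x : ℝ) : ℂ) * u x

theorem inner_mk2 (f : (Fin d → ℤ) → ℂ) (hf : Summable fun x => ‖f x‖ ^ 2) (w : l2 (Fin d → ℤ)) :
    ⟪mk2 f hf, w⟫_ℂ = ∑' x, (starRingEnd ℂ) (f x) * w x := by
  rw [lp.inner_eq_tsum]
  refine tsum_congr fun x => ?_
  rw [mk2_apply, RCLike.inner_apply, mul_comm]

theorem spm_of_fn {A : ((Fin d → ℤ) → ℂ) → (Fin d → ℤ) → ℂ} {K : C(UnitAddTorus (Fin d), ℝ)}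
    {B lam : ℝ} {v : (Fin d → ℤ) → ℝ} (hA : Rep A K lam v) (hB : 0 < B)
    (hV : ∀ x, |lam * v x| ≤ B) {f : (Fin d → ℤ) → ℂ} (hf : Summable fun x => ‖f x‖ ^ 2)
    {m : Measure ℝ} (h : IsSpF A f m) : SpM (TK K B fun x => lam * v x) (mk2 f hf) m := by
  refine ⟨h.1, fun z hz => ?_⟩
  obtain ⟨u, hu, h1, h2⟩ := h.2 z hz
  have h3 : mk2 u hu = Rz (TK K B fun x => lam * v x) z (mk2 f hf) := by
    apply rz_uniq _ (TK_sa K hB hV) z hz
    apply lp.ext
    funext y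
    rw [sub_smul_apply, TK_apply K hB hV, mk2_apply f hf, ← h1 y, hA u hu y]
    rfl
  rw [← h3, h2, inner_mk2]
  rfl

theorem fn_of_spm {A : ((Fin d → ℤ) → ℂ) → (Fin d → ℤ) → ℂ} {K : C(UnitAddTorus (Fin d), ℝ)}
    {B lam : ℝ} {v : (Fin d → ℤ) → ℝ} (hA : Rep A K lam v) (hB : 0 < B)
    (hV : ∀ x, |lam * v x| ≤ B) {f : (Fin d → ℤ) → ℂ} (hf : Summable fun x => ‖f x‖ ^ 2)
    {m : Measure ℝ} (h : SpM (TK K B fun x => lam * v x) (mk2 f hf) m) : IsSpF A f m := by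
  refine ⟨h.1, fun z hz => ?_⟩
  refine ⟨fun x => (Rz (TK K B fun x => lam * v x) z (mk2 f hf)) x, l2_summable _, fun x => ?_, ?_⟩
  · rw [hA _ (l2_summable _)]
    have h1 := rz_eq (TK K B fun x => lam * v x) (TK_sa K hB hV) z hz (mk2 f hf)
    have h2 : (TK K B (fun x => lam * v x) (Rz (TK K B fun x => lam * v x) z (mk2 f hf)) -
        z • Rz (TK K B fun x => lam * v x) z (mk2 f hf) : l2 (Fin d → ℤ)) x =
          (mk2 f hf : l2 _) x := by
      rw [h1]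
    rw [sub_smul_apply, TK_apply K hB hV, mk2_apply] at h2
    exact h2
  · rw [← h.2 z hz, inner_mk2]

open Classical in
/-- **function level main theorem** -/
theorem fn_main {A : ((Fin d → ℤ) → ℂ) → (Fin d → ℤ) → ℂ} {K : C(UnitAddTorus (Fin d), ℝ)}
    {B lam : ℝ} {v : (Fin d → ℤ) → ℝ} (hA : Rep A K lam v) (hV : ∀ x, |v x| ≤ B)
    {a b : ℝ} (h : ACIK K lam v a b) :
    (∀ f, (Summable fun x => ‖f x‖ ^ 2) → ∃ m, IsSpF A f m) ∧
    (∀ f m, (Summable fun x => ‖f x‖ ^ 2) → IsSpF A f m →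
      ∀ S : Set ℝ, S ⊆ Set.Ioo a b → volume S = 0 → m S = 0) ∧
    (∀ x m, IsSpF A (fun y => if y = x then 1 else 0) m →
      ∀ S : Set ℝ, S ⊆ Set.Ioo a b → MeasurableSet S → m S = 0 → volume S = 0) := by
  have hB : (0 : ℝ) < |lam| * |B| + 1 := by positivity
  have hV' : ∀ x, |lam * v x| ≤ |lam| * |B| + 1 := by
    intro x
    rw [abs_mul]
    have h1 : |v x| ≤ |B| := (hV x).trans (le_abs_self B)
    have h2 := mul_le_mul_of_nonneg_left h1 (abs_nonneg lam)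
    linarith
  obtain ⟨h1, h2⟩ := ac_all K hB hV' h
  refine ⟨fun f hf => ?_, fun f m hf hm S hS h0 => ?_, fun x m hm S hS hSm h0 => ?_⟩
  · obtain ⟨m, hm, -⟩ := spm_exists _ (TK_sa K hB hV') (mk2 f hf)
    exact ⟨m, fn_of_spm hA hB hV' hf hm⟩
  · exact h1 _ m (spm_of_fn hA hB hV' hf hm) S hS h0
  · have hf : Summable fun y : Fin d → ℤ => ‖(if y = x then (1 : ℂ) else 0)‖ ^ 2 := by
      refine summable_of_ne_finset_zero (s := {x}) fun y hy => ?_
      rw [if_neg (by simpa using hy)]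
      simp
    have h3 := spm_of_fn hA hB hV' hf hm
    have h4 : mk2 (fun y : Fin d → ℤ => if y = x then (1 : ℂ) else 0) hf = dl x := by
      apply lp.ext
      funext y
      rw [mk2_apply, dl_apply]
    rw [h4] at h3
    exact h2 x m h3 S hS hSm h0

theorem hop_add (K L : C(UnitAddTorus (Fin d), ℝ)) (u : (Fin d → ℤ) → ℂ)
    (hu : Summable fun x => ‖u x‖ ^ 2) (x : Fin d → ℤ) :
    ∑' y, hopK (K + L) (x - y) * u y =
      ∑' y, hopK K (x - y) * u y + ∑' y, hopK L (x - y) * u y := by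
  change ∑' y', W792.GK.hop (K + L) (x - y') * u y' =
    ∑' y', W792.GK.hop K (x - y') * u y' + ∑' y', W792.GK.hop L (x - y') * u y'
  rw [← Summable.tsum_add (W792.GKLap.hop_summable K u hu x) (W792.GKLap.hop_summable L u hu x)]
  refine tsum_congr fun y' => ?_
  rw [W792.GKLap.hop_add, add_mul]

theorem hop_lap (u : (Fin d → ℤ) → ℂ) (x : Fin d → ℤ) :
    ∑' y, hopK (lap d) (x - y) * u y =
      ∑ i : Fin d, (2 * u x - u (x + Pi.single i 1) - u (x - Pi.single i 1)) := by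
  exact W792.GKLap.lap_conv d u x

theorem inf_lt_sup {K : UnitAddTorus (Fin d) → ℝ} (hK : Continuous K) {k₁ k₂ : UnitAddTorus (Fin d)}
    (h : K k₁ ≠ K k₂) : (⨅ k, K k) < ⨆ k, K k := by
  have hc : IsCompact (Set.range K) := isCompact_range hK
  have hb := hc.bddBelow
  have ha := hc.bddAbove
  rcases lt_or_gt_of_ne h with h1 | h1
  · exact (ciInf_le hb k₁).trans_lt (h1.trans_le (le_ciSup ha k₂))
  · exact (ciInf_le hb k₂).trans_lt (h1.trans_le (le_ciSup ha k₁))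

theorem int_pow {ν : Measure ℝ} [IsProbabilityMeasure ν] {R : ℝ} (h : ∀ᵐ s ∂ν, |s| ≤ R) (n : ℕ) :
    Integrable (fun s : ℝ => s ^ n) ν := by
  refine Integrable.of_bound (by fun_prop) (|R| ^ n) ?_
  filter_upwards [h] with s hs
  rw [norm_pow, Real.norm_eq_abs]
  exact pow_le_pow_left₀ (abs_nonneg s) (hs.trans (le_abs_self R)) n

theorem all_sites {ν : Measure ℝ} [IsProbabilityMeasure ν] {R : ℝ} (h : ∀ᵐ s ∂ν, |s| ≤ R) :
    ∀ᵐ ω ∂(Measure.infinitePi fun _ : Fin d → ℤ => ν), ∀ x, |ω x| ≤ R := by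
  rw [ae_all_iff]
  intro x
  exact (measurePreserving_eval_infinitePi (fun _ : Fin d → ℤ => ν) x).quasiMeasurePreserving.ae h

end Pool.Agent.Y663.WA
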