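import Pool.Agent.TH369.SJ.BF

/-!
Sets of spectral measure zero for the members of a total family have spectral measure zero for
all vectors.
-/

set_option autoImplicit false

open MeasureTheory Filter Topology
open scoped InnerProductSpace ENNReal

namespace Pool.Agent.Y663.WA

open Pool.Agent.TH369.MU (SpM spm_exists)
open Pool.Agent.TH369.SJ (spm_unique spm_cfc spm_norm)
open Pool.Agent.TH369.SJ.BF (normsq approx ind ind_abs ind_meas)

variable {X : Type} [NormedAddCommGroup X] [InnerProductSpace ℂ X] [CompleteSpace X]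

theorem ind_sq (A : Set ℝ) (x : ℝ) : ind A x ^ 2 = A.indicator (fun _ => (1 : ℝ)) x := by
  unfold ind
  by_cases h : x ∈ A
  · rw [Set.indicator_of_mem h]; norm_num
  · rw [Set.indicator_of_notMem h]; norm_num

theorem tendsto_sq (m : Measure ℝ) [IsFiniteMeasure m] {A : Set ℝ} (hA : MeasurableSet A)
    (f : ℕ → ℝ → ℝ) (hf : ∀ n, Continuous (f n)) (hf1 : ∀ n x, |f n x| ≤ 1)
    (h : ∀ᵐ x ∂m, Tendsto (fun n => f n x) atTop (𝓝 (ind A x))) :
    Tendsto (fun n => ∫ x, f n x ^ 2 ∂m) atTop (𝓝 (m.real A)) := by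
  have h1 : ∫ x, ind A x ^ 2 ∂m = m.real A := by
    simp only [ind_sq]
    rw [integral_indicator hA, setIntegral_const, smul_eq_mul, mul_one]
  rw [← h1]
  refine tendsto_integral_of_dominated_convergence (fun _ => (1 : ℝ)) (fun n => ?_)
    (integrable_const _) (fun n => ?_) ?_
  · exact ((hf n).pow 2).aestronglyMeasurable
  · refine Eventually.of_forall fun x => ?_
    rw [Real.norm_eq_abs, abs_pow]
    exact pow_le_one₀ (abs_nonneg _) (hf1 n x)
  · filter_upwards [h] with x hx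
    exact hx.pow 2

theorem normsq_le (T : X →L[ℂ] X) (hT : IsSelfAdjoint T) (φ : X) {f : ℝ → ℝ} (hf : Continuous f)
    (hf1 : ∀ x, |f x| ≤ 1) : ‖cfc f T φ‖ ≤ ‖φ‖ := by
  obtain ⟨m, hm, -⟩ := spm_exists T hT φ
  haveI := hm.1
  have h1 := normsq T hT φ m hm hf
  have h2 := spm_norm T hT φ m hm
  have h3 : ∫ x, f x ^ 2 ∂m ≤ ∫ _, (1 : ℝ) ∂m := by
    refine integral_mono_of_nonneg (Eventually.of_forall fun x => sq_nonneg _) (integrable_const _)
      (Eventually.of_forall fun x => ?_)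
    change f x ^ 2 ≤ 1
    rw [← sq_abs]
    exact pow_le_one₀ (abs_nonneg _) (hf1 x)
  rw [integral_const, smul_eq_mul, mul_one, h2, ← h1] at h3
  exact le_of_sq_le_sq h3 (norm_nonneg _)

/-- from a total family to all vectors -/
theorem null_all (T : X →L[ℂ] X) (hT : IsSelfAdjoint T) {ι : Type} (e : ι → X) {A : Set ℝ}
    (hA : MeasurableSet A)
    (hden : ∀ (φ : X) (δ : ℝ), 0 < δ → ∃ (s : Finset ι) (c : ι → ℂ),
      ‖φ - ∑ i ∈ s, c i • e i‖ ≤ δ)
    (h0 : ∀ (i : ι) (m : Measure ℝ), SpM T (e i) m → m A = 0) (φ : X) (m : Measure ℝ)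
    (hm : SpM T φ m) : m A = 0 := by
  haveI := hm.1
  have key : ∀ δ : ℝ, 0 < δ → m.real A ≤ δ ^ 2 := by
    intro δ hδ
    obtain ⟨s, c, hs⟩ := hden φ δ hδ
    choose μ hμ _ using fun i : ι => spm_exists T hT (e i)
    haveI : ∀ i, IsFiniteMeasure (μ i) := fun i => (hμ i).1
    obtain ⟨f, hf1, hf2, hf3⟩ := approx (m + ∑ i ∈ s, μ i) hA
    have hm3 : ∀ᵐ x ∂m, Tendsto (fun n => f n x) atTop (𝓝 (ind A x)) :=
      (Measure.absolutelyContinuous_of_le (Measure.le_add_right le_rfl)).ae_le hf3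
    have hi3 : ∀ i ∈ s, ∀ᵐ x ∂(μ i), Tendsto (fun n => f n x) atTop (𝓝 (ind A x)) := by
      intro i hi
      have h1 : μ i ≤ m + ∑ i ∈ s, μ i := by
        refine le_trans ?_ (Measure.le_add_left le_rfl)
        exact Finset.single_le_sum (f := μ) (fun _ _ => Measure.zero_le _) hi
      exact (Measure.absolutelyContinuous_of_le h1).ae_le hf3
    have t1 := tendsto_sq m hA f hf1 hf2 hm3
    have t2 : ∀ i ∈ s, Tendsto (fun n => ‖cfc (f n) T (e i)‖) atTop (𝓝 0) := by
      intro i hi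
      have h1 := tendsto_sq (μ i) hA f hf1 hf2 (hi3 i hi)
      rw [measureReal_def, h0 i (μ i) (hμ i), ENNReal.toReal_zero] at h1
      have h2 : (fun n => ∫ x, f n x ^ 2 ∂(μ i)) = fun n => ‖cfc (f n) T (e i)‖ ^ 2 := by
        funext n
        rw [normsq T hT (e i) (μ i) (hμ i) (hf1 n)]
      rw [h2] at h1
      have h3 := h1.sqrt
      simpa [Real.sqrt_sq] using h3
    have t3 : Tendsto (fun n => ∑ i ∈ s, ‖c i‖ * ‖cfc (f n) T (e i)‖ + δ) atTop (𝓝 (0 + δ)) := by
      refine Tendsto.add_const δ ?_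
      have := tendsto_finsetSum s fun i hi => (t2 i hi).const_mul ‖c i‖
      simpa using this
    have t4 : ∀ n, ‖cfc (f n) T φ‖ ≤ ∑ i ∈ s, ‖c i‖ * ‖cfc (f n) T (e i)‖ + δ := by
      intro n
      have e1 : φ = (φ - ∑ i ∈ s, c i • e i) + ∑ i ∈ s, c i • e i := by rw [sub_add_cancel]
      have e2 : cfc (f n) T φ = cfc (f n) T (φ - ∑ i ∈ s, c i • e i) +
          ∑ i ∈ s, c i • cfc (f n) T (e i) := by
        conv_lhs => rw [e1, map_add, map_sum]
        simp only [map_smul]
      rw [e2]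
      refine (norm_add_le _ _).trans ?_
      rw [add_comm]
      refine add_le_add ?_ ((normsq_le T hT _ (hf1 n) (hf2 n)).trans hs)
      refine (norm_sum_le _ _).trans (Finset.sum_le_sum fun i _ => ?_)
      rw [norm_smul]
    have t5 : Tendsto (fun n => ‖cfc (f n) T φ‖ ^ 2) atTop (𝓝 (m.real A)) := by
      refine t1.congr fun n => ?_
      rw [normsq T hT φ m hm (hf1 n)]
    rw [zero_add] at t3
    refine le_of_tendsto_of_tendsto' t5 (t3.pow 2) fun n => ?_
    exact pow_le_pow_left₀ (norm_nonneg _) (t4 n) 2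
  have h1 : m.real A = 0 := by
    refine le_antisymm ?_ measureReal_nonneg
    by_contra hcon
    have hpos : 0 < m.real A := not_le.1 hcon
    have h2 := key (Real.sqrt (m.real A / 2)) (Real.sqrt_pos.2 (by linarith))
    rw [Real.sq_sqrt (by linarith)] at h2
    linarith
  rw [measureReal_def, ENNReal.toReal_eq_zero_iff] at h1
  exact h1.resolve_right (measure_ne_top _ _)

end Pool.Agent.Y663.WA
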